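import Pool.Agent.Helper729.SRDMain

/-!
# Surjective preservers of the spectral radius of sums (second question)

For complex Banach spaces `X`, `Y`, a map `φ : 𝓑(X) → 𝓑(Y)` (no linearity, additivity or
continuity assumed) is surjective and satisfies `r(φ(T) + φ(S)) = r(T + S)` for all `T`, `S` if
and only if `φ(T) = α A T A⁻¹` with `A : X → Y` bounded, bijective and linear or
conjugate-linear, or `φ(T) = α A T* A⁻¹` with `A : X* → Y` bounded, bijective and linear or
conjugate-linear and `X` reflexive; here `|α| = 1`.
-/

set_option autoImplicit false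

open Pool.Agent.Helper729.SRD in
theorem Pool.Agent.Results.MP_6989a0_an.SumPreservers.result {X Y : Type*}
    [NormedAddCommGroup X] [NormedSpace ℂ X] [CompleteSpace X]
    [NormedAddCommGroup Y] [NormedSpace ℂ Y] [CompleteSpace Y]
    (φ : (X →L[ℂ] X) → (Y →L[ℂ] Y)) :
    (Function.Surjective φ ∧
      ∀ T S : X →L[ℂ] X, spectralRadius ℂ (φ T + φ S) = spectralRadius ℂ (T + S)) ↔
    IsStandard φ 0 :=
  q2 φ
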